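import Pool.Agent.N96.LF.C

/-! The kinetic energy inequality when the real parts of the functions of the span are small. -/

set_option autoImplicit false

open MeasureTheory Set Filter Topology Real

namespace Pool.Agent.U615.LT

open LTd Pool.Agent.R282.KO Pool.Agent.N96.LF

variable {d : ℕ}

/-- The inequality of the library under a bound for the real parts only. -/
theorem sub_re (d : ℕ) (hd : 1 ≤ d) (N : ℕ) (u : Fin N → (Fin d → ℝ) → ℂ)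
    (g : Fin N → Fin d → (Fin d → ℝ) → ℂ) (hu : ∀ i, WGradC (u i) (g i))
    (ho : ∀ a : Fin N → ℂ, ∫ x, (∑ i, a i * u i x).re ^ 2 ≤ ∑ i, ‖a i‖ ^ 2) :
    Integrable (fun x => (∑ i, ‖u i x‖ ^ 2) ^ (1 + 2 / (d:ℝ))) ∧
    (3 / 4 : ℝ) ^ (1 / (d:ℝ)) * Kcl d * ∫ x, (∑ i, ‖u i x‖ ^ 2) ^ (1 + 2 / (d:ℝ)) ≤
      ∑ i, ∑ k, ∫ x, ‖g i k x‖ ^ 2 := by
  obtain ⟨m, rfl⟩ : ∃ m, d = m + 1 := ⟨d - 1, by omega⟩
  have hsq : ∀ z : ℂ, ‖z‖ ^ 2 = z.re ^ 2 + z.im ^ 2 := by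
    intro z
    rw [Complex.sq_norm, Complex.normSq_apply]; ring
  let F : Fin (N + N) → (Fin (m + 1) → ℝ) → ℝ :=
    Fin.append (fun i x => (u i x).re) (fun i x => (u i x).im)
  let G : Fin (N + N) → Fin (m + 1) → (Fin (m + 1) → ℝ) → ℝ :=
    Fin.append (fun i k x => (g i k x).re) (fun i k x => (g i k x).im)
  have hFl : ∀ i, F (Fin.castAdd N i) = fun x => (u i x).re := fun i => Fin.append_left _ _ i
  have hFr : ∀ i, F (Fin.natAdd N i) = fun x => (u i x).im := fun i => Fin.append_right _ _ i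
  have hGl : ∀ i, G (Fin.castAdd N i) = fun k x => (g i k x).re := fun i => Fin.append_left _ _ i
  have hGr : ∀ i, G (Fin.natAdd N i) = fun k x => (g i k x).im := fun i => Fin.append_right _ _ i
  have hW : ∀ i, WGrad (F i) (G i) := by
    intro i
    refine Fin.addCases (fun i => ?_) (fun i => ?_) i
    · rw [hFl, hGl]
      exact (split_complex (hu i)).1
    · rw [hFr, hGr]
      exact (split_complex (hu i)).2
  have hG : ∀ v : Fin (N + N) → ℝ, ∫ x, (∑ i, v i * F i x) ^ 2 ≤ ∑ i, v i ^ 2 := by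
    intro v
    set a : Fin N → ℂ := fun i => ⟨v (Fin.castAdd N i), -v (Fin.natAdd N i)⟩ with ha
    have h2 : ∀ x, ∑ i, v i * F i x = (∑ i, a i * u i x).re := by
      intro x
      rw [Fin.sum_univ_add, Complex.re_sum, ← Finset.sum_add_distrib]
      refine Finset.sum_congr rfl fun i _ => ?_
      simp only [hFl, hFr, ha, Complex.mul_re]
      ring
    have h3 : ∑ i, v i ^ 2 = ∑ i : Fin N, ‖a i‖ ^ 2 := by
      rw [Fin.sum_univ_add, ← Finset.sum_add_distrib]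
      refine Finset.sum_congr rfl fun i _ => ?_
      rw [hsq]
      simp only [ha]
      ring
    rw [h3]
    simp only [h2]
    exact ho a
  have hH := H_real m (N + N) F G hW hG
  have hFs : ∀ x, ∑ i, F i x ^ 2 = ∑ i, ‖u i x‖ ^ 2 := by
    intro x
    rw [Fin.sum_univ_add, ← Finset.sum_add_distrib]
    simp only [hFl, hFr, hsq]
  have hGs : ∀ x, ∑ j, ∑ i, G i j x ^ 2 = ∑ i, ∑ j, ‖g i j x‖ ^ 2 := by
    intro x
    rw [Finset.sum_comm, Fin.sum_univ_add, ← Finset.sum_add_distrib]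
    refine Finset.sum_congr rfl fun i _ => ?_
    rw [← Finset.sum_add_distrib]
    simp only [hGl, hGr, hsq]
  simp only [hFs, hGs, const_final, final_thm_pp] at hH
  refine ⟨hH.1, ?_⟩
  have hI : ∀ i k, Integrable (fun x => ‖g i k x‖ ^ 2) := by
    intro i k
    have := (hu i).g2 k
    exact this.integrable_norm_pow two_ne_zero
  have hint : ∫ x, ∑ i, ∑ j, ‖g i j x‖ ^ 2 = ∑ i, ∑ k, ∫ x, ‖g i k x‖ ^ 2 := by
    rw [integral_finsetSum _ (fun i _ => integrable_finsetSum _ (fun k _ => hI i k))]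
    refine Finset.sum_congr rfl fun i _ => ?_
    rw [integral_finsetSum _ (fun k _ => hI i k)]
  rw [hint] at hH
  have h5 := hH.2
  have h6 : ((m + 1 : ℕ) : ℝ) = (m : ℝ) + 1 := by push_cast; ring
  rw [h6] at h5 ⊢
  exact h5

/-- The inequality for one cutoff, real parts. -/
theorem cell_re (hd : 1 ≤ d) {N : ℕ} (u : Fin N → (Fin d → ℝ) → ℂ)
    (g : Fin N → Fin d → (Fin d → ℝ) → ℂ) (hu : ∀ i, WGradC (u i) (g i))
    {χ : (Fin d → ℝ) → ℝ} (hχ : ContDiff ℝ (⊤ : ℕ∞) χ) (hcs : HasCompactSupport χ)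
    (c : ℝ) (hc : 0 < c)
    (hgram : ∀ a : Fin N → ℂ, ∫ x, χ x ^ 2 * (∑ i, a i * u i x).re ^ 2 ≤ c * ∑ i, ‖a i‖ ^ 2) :
    c ^ (-(2 / (d : ℝ))) * ((3 / 4 : ℝ) ^ (1 / (d : ℝ)) * Kcl d) *
        ∫ x, (χ x ^ 2) ^ (1 + 2 / (d : ℝ)) * rho u x ^ (1 + 2 / (d : ℝ)) ≤
      ∑ i, ∑ k, ∫ x, ‖(χ x : ℂ) * g i k x + (pd k χ x : ℂ) * u i x‖ ^ 2 := by
  have hdR : (0 : ℝ) < d := by exact_mod_cast hd
  set p : ℝ := 1 + 2 / (d : ℝ) with hp
  set K : ℝ := (3 / 4 : ℝ) ^ (1 / (d : ℝ)) * Kcl d with hK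
  set r : ℝ := √(c⁻¹) with hr
  have hci : 0 < c⁻¹ := inv_pos.2 hc
  have hr2 : r ^ 2 = c⁻¹ := Real.sq_sqrt hci.le
  have hn : ∀ z : ℂ, ‖(r : ℂ) * z‖ ^ 2 = c⁻¹ * ‖z‖ ^ 2 := by
    intro z
    rw [norm_mul, Complex.norm_real, Real.norm_eq_abs, mul_pow, sq_abs, hr2]
  have hn2 : ∀ (x : Fin d → ℝ) (z : ℂ), ‖(χ x : ℂ) * z‖ ^ 2 = χ x ^ 2 * ‖z‖ ^ 2 := by
    intro x z
    rw [norm_mul, Complex.norm_real, Real.norm_eq_abs, mul_pow, sq_abs]
  have h1 := sub_re d hd N (fun i x => (r : ℂ) * ((χ x : ℂ) * u i x))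
    (fun i k x => (r : ℂ) * ((χ x : ℂ) * g i k x + (pd k χ x : ℂ) * u i x))
    (fun i => smul_wgrad (wgrad_mul (hu i) hχ hcs) r) ?_
  · have h2 := h1.2
    simp only [hn, integral_const_mul, ← Finset.mul_sum] at h2
    have e1 : ∀ x, (c⁻¹ * ∑ i, ‖(χ x : ℂ) * u i x‖ ^ 2) ^ (1 + 2 / (d : ℝ)) =
        c⁻¹ ^ p * ((χ x ^ 2) ^ p * rho u x ^ p) := by
      intro x
      have h0 : ∑ i, ‖(χ x : ℂ) * u i x‖ ^ 2 = χ x ^ 2 * rho u x := by
        unfold rho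
        rw [Finset.mul_sum]
        exact Finset.sum_congr rfl fun i _ => hn2 x _
      rw [h0, ← hp, Real.mul_rpow hci.le (mul_nonneg (sq_nonneg _) (rho_nonneg u x)),
        Real.mul_rpow (sq_nonneg _) (rho_nonneg u x)]
    simp only [e1, integral_const_mul] at h2
    rw [← hK] at h2
    have e : (c⁻¹ : ℝ) ^ p = c⁻¹ * c ^ (-(2 / (d : ℝ))) := by
      rw [hp, Real.rpow_add hci, Real.rpow_one, Real.inv_rpow hc.le, Real.rpow_neg hc.le]
    rw [e] at h2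
    refine le_of_mul_le_mul_left ?_ hci
    calc c⁻¹ * (c ^ (-(2 / (d : ℝ))) * K * ∫ x, (χ x ^ 2) ^ p * rho u x ^ p)
        = K * (c⁻¹ * c ^ (-(2 / (d : ℝ))) * ∫ x, (χ x ^ 2) ^ p * rho u x ^ p) := by ring
      _ ≤ _ := h2
  · intro a
    have h2 : ∀ x, (∑ i, a i * ((r : ℂ) * ((χ x : ℂ) * u i x))).re ^ 2 =
        c⁻¹ * (χ x ^ 2 * (∑ i, a i * u i x).re ^ 2) := by
      intro x
      have h3 : ∑ i, a i * ((r : ℂ) * ((χ x : ℂ) * u i x)) =
          ((r * χ x : ℝ) : ℂ) * ∑ i, a i * u i x := by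
        rw [Finset.mul_sum]
        push_cast
        exact Finset.sum_congr rfl fun i _ => by ring
      rw [h3, Complex.re_ofReal_mul, mul_pow, mul_pow, hr2]
      ring
    simp only [h2, integral_const_mul]
    have h3 := mul_le_mul_of_nonneg_left (hgram a) hci.le
    rwa [← mul_assoc, inv_mul_cancel₀ hc.ne', one_mul] at h3

/-- The global inequality. -/
theorem glob (hd : 1 ≤ d) {N : ℕ} (u : Fin N → (Fin d → ℝ) → ℂ)
    (g : Fin N → Fin d → (Fin d → ℝ) → ℂ) (hu : ∀ i, WGradC (u i) (g i)) (c : ℝ) (hc : 0 < c)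
    (hgram : ∀ a : Fin N → ℂ, ∫ x, (∑ i, a i * u i x).re ^ 2 ≤ c * ∑ i, ‖a i‖ ^ 2) :
    Integrable (fun x => rho u x ^ (1 + 2 / (d : ℝ))) ∧
    c ^ (-(2 / (d : ℝ))) * ((3 / 4 : ℝ) ^ (1 / (d : ℝ)) * Kcl d) *
        ∫ x, rho u x ^ (1 + 2 / (d : ℝ)) ≤ kin g := by
  have hdR : (0 : ℝ) < d := by exact_mod_cast hd
  set p : ℝ := 1 + 2 / (d : ℝ) with hp
  set K : ℝ := (3 / 4 : ℝ) ^ (1 / (d : ℝ)) * Kcl d with hK
  set r : ℝ := √(c⁻¹) with hr
  have hci : 0 < c⁻¹ := inv_pos.2 hc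
  have hr2 : r ^ 2 = c⁻¹ := Real.sq_sqrt hci.le
  have hn : ∀ z : ℂ, ‖(r : ℂ) * z‖ ^ 2 = c⁻¹ * ‖z‖ ^ 2 := by
    intro z
    rw [norm_mul, Complex.norm_real, Real.norm_eq_abs, mul_pow, sq_abs, hr2]
  have h1 := sub_re d hd N (fun i x => (r : ℂ) * u i x) (fun i k x => (r : ℂ) * g i k x)
    (fun i => smul_wgrad (hu i) r) ?_
  · have e1 : ∀ x, (c⁻¹ * ∑ i, ‖u i x‖ ^ 2) ^ (1 + 2 / (d : ℝ)) = c⁻¹ ^ p * rho u x ^ p := by
      intro x
      rw [← hp]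
      exact Real.mul_rpow hci.le (rho_nonneg u x)
    simp only [hn, integral_const_mul, ← Finset.mul_sum, e1] at h1
    rw [← hK] at h1
    have hcp : 0 < c⁻¹ ^ p := Real.rpow_pos_of_pos hci _
    have e : (c⁻¹ : ℝ) ^ p = c⁻¹ * c ^ (-(2 / (d : ℝ))) := by
      rw [hp, Real.rpow_add hci, Real.rpow_one, Real.inv_rpow hc.le, Real.rpow_neg hc.le]
    refine ⟨?_, ?_⟩
    · have h3 := h1.1.const_mul ((c⁻¹ ^ p)⁻¹)
      refine h3.congr (Eventually.of_forall fun x => ?_)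
      show (c⁻¹ ^ p)⁻¹ * (c⁻¹ ^ p * rho u x ^ p) = _
      rw [← mul_assoc, inv_mul_cancel₀ hcp.ne', one_mul]
    · have h2 := h1.2
      rw [e] at h2
      refine le_of_mul_le_mul_left ?_ hci
      calc c⁻¹ * (c ^ (-(2 / (d : ℝ))) * K * ∫ x, rho u x ^ p)
          = K * (c⁻¹ * c ^ (-(2 / (d : ℝ))) * ∫ x, rho u x ^ p) := by ring
        _ ≤ _ := h2
  · intro a
    have h2 : ∀ x, (∑ i, a i * ((r : ℂ) * u i x)).re ^ 2 =
        c⁻¹ * (∑ i, a i * u i x).re ^ 2 := by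
      intro x
      have h3 : ∑ i, a i * ((r : ℂ) * u i x) = (r : ℂ) * ∑ i, a i * u i x := by
        rw [Finset.mul_sum]
        exact Finset.sum_congr rfl fun i _ => by ring
      rw [h3, Complex.re_ofReal_mul, mul_pow, hr2]
    simp only [h2, integral_const_mul]
    have h3 := mul_le_mul_of_nonneg_left (hgram a) hci.le
    rwa [← mul_assoc, inv_mul_cancel₀ hc.ne', one_mul] at h3

end Pool.Agent.U615.LT
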