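import Pool.Agent.U615.LT.A
import Pool.Agent.N96.LF.F

/-! The localised inequality for the real parts of the functions of the span. -/

set_option autoImplicit false

open MeasureTheory Set Filter Topology Real

namespace Pool.Agent.U615.LT

open LTd Pool.Agent.R282.KO Pool.Agent.N96.LF

variable {d : ℕ}

theorem avg_re (hd : 1 ≤ d) {N : ℕ} (u : Fin N → (Fin d → ℝ) → ℂ)
    (g : Fin N → Fin d → (Fin d → ℝ) → ℂ) (hu : ∀ i, WGradC (u i) (g i)) (hsub : SubGram u)
    {χ : (Fin d → ℝ) → ℝ} (hχ : ContDiff ℝ (⊤ : ℕ∞) χ) (hcs : HasCompactSupport χ)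
    (h0 : ∀ x, 0 ≤ χ x) (h1 : ∀ x, χ x ≤ 1) (c : ℝ) (hc : 0 < c) (hc1 : c ≤ 1)
    (S : Set (Fin d → ℝ)) (hS : MeasurableSet S)
    (hout : ∀ x y, x ∉ S → χ (x - y) ≠ 0 → ∀ a : Fin N → ℂ,
      ∫ z, χ (z - y) ^ 2 * (∑ i, a i * u i z).re ^ 2 ≤ c * ∑ i, ‖a i‖ ^ 2) :
    Integrable (fun x => rho u x ^ (1 + 2 / (d : ℝ))) ∧
    c ^ (-(2 / (d : ℝ))) * ((3 / 4 : ℝ) ^ (1 / (d : ℝ)) * Kcl d) *
        ((∫ x, (χ x ^ 2) ^ (1 + 2 / (d : ℝ))) * ∫ x, rho u x ^ (1 + 2 / (d : ℝ))) ≤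
      (∫ x, χ x ^ 2) * kin g + (∑ k, ∫ x, pd k χ x ^ 2) * (∑ i, ∫ x, ‖u i x‖ ^ 2) +
      (c ^ (-(2 / (d : ℝ))) - 1) * ((3 / 4 : ℝ) ^ (1 / (d : ℝ)) * Kcl d) *
        ((∫ x, (χ x ^ 2) ^ (1 + 2 / (d : ℝ))) * ∫ x in S, rho u x ^ (1 + 2 / (d : ℝ))) := by
  classical
  have hdR : (0 : ℝ) < d := by exact_mod_cast hd
  set p : ℝ := 1 + 2 / (d : ℝ) with hp
  have hp0 : 0 < p := by rw [hp]; positivity
  set K : ℝ := (3 / 4 : ℝ) ^ (1 / (d : ℝ)) * Kcl d with hK
  have hK0 : 0 ≤ K := mul_nonneg (by positivity) (kcl_nonneg d)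
  set C : ℝ := c ^ (-(2 / (d : ℝ))) with hC
  have hC1 : 1 ≤ C := Real.one_le_rpow_of_pos_of_le_one_of_nonpos hc hc1 (by
    have : 0 < 2 / (d : ℝ) := by positivity
    linarith)
  have hPi : Integrable (fun x => rho u x ^ p) := (sub_thm d hd N u g hu hsub).1
  refine ⟨hPi, ?_⟩
  set P : (Fin d → ℝ) → ℝ := fun x => rho u x ^ p with hP
  have hP0 : ∀ x, 0 ≤ P x := fun x => Real.rpow_nonneg (rho_nonneg u x) _
  set w : (Fin d → ℝ) → ℝ := fun x => (χ x ^ 2) ^ p with hw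
  have hw0 : ∀ x, 0 ≤ w x := fun x => Real.rpow_nonneg (sq_nonneg _) _
  have hwc : Continuous w := (hχ.continuous.pow 2).rpow_const fun x => Or.inr hp0.le
  have hws : HasCompactSupport w := by
    refine hcs.comp_left (g := fun t : ℝ => (t ^ 2) ^ p) ?_
    show ((0 : ℝ) ^ 2) ^ p = 0
    rw [zero_pow two_ne_zero, Real.zero_rpow hp0.ne']
  have hPS : Integrable (S.indicator P) := hPi.indicator hS
  set T : (Fin d → ℝ) → ℝ := fun y => ∑ i, ∑ k, ∫ x, ‖(χ (x - y) : ℂ) * g i k x +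
    (pd k (fun x => χ (x - y)) x : ℂ) * u i x‖ ^ 2 with hT
  have avS0 : ∀ y, 0 ≤ Av w (S.indicator P) y := fun y =>
    integral_nonneg fun x => mul_nonneg (hw0 _) (indicator_nonneg (fun x _ => hP0 x) x)
  have point : ∀ y, C * K * Av w P y ≤ T y + (C - 1) * K * Av w (S.indicator P) y := by
    intro y
    have hχy : ContDiff ℝ (⊤ : ℕ∞) fun x => χ (x - y) := hχ.comp (contDiff_id.sub contDiff_const)
    have hcy : HasCompactSupport fun x => χ (x - y) :=
      hcs.comp_homeomorph (Homeomorph.subRight y)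
    by_cases h : ∀ a : Fin N → ℂ,
        ∫ z, χ (z - y) ^ 2 * (∑ i, a i * u i z).re ^ 2 ≤ c * ∑ i, ‖a i‖ ^ 2
    · have h2 : C * K * Av w P y ≤ T y := cell_re hd u g hu hχy hcy c hc h
      have h3 : 0 ≤ (C - 1) * K * Av w (S.indicator P) y :=
        mul_nonneg (mul_nonneg (by linarith) hK0) (avS0 y)
      linarith
    · have hin : ∀ x, χ (x - y) ≠ 0 → x ∈ S := by
        intro x hx
        by_contra hxS
        exact h (hout x y hxS hx)
      have h4 : Av w P y = Av w (S.indicator P) y := by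
        unfold Av
        refine integral_congr_ae (Eventually.of_forall fun x => ?_)
        show w (x - y) * P x = w (x - y) * S.indicator P x
        by_cases hx : χ (x - y) = 0
        · have : w (x - y) = 0 := by
            simp only [hw, hx]
            rw [zero_pow two_ne_zero, Real.zero_rpow hp0.ne']
          rw [this, zero_mul, zero_mul]
        · rw [indicator_of_mem (hin x hx)]
      have h5 : ∀ a : Fin N → ℂ,
          ∫ z, χ (z - y) ^ 2 * ‖∑ i, a i * u i z‖ ^ 2 ≤ 1 * ∑ i, ‖a i‖ ^ 2 := by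
        intro a
        rw [one_mul]
        refine le_trans ?_ (hsub a)
        have hi : Integrable fun z => ‖∑ i, a i * u i z‖ ^ 2 :=
          (sum_memLp u (fun i => (hu i).f2) a).integrable_norm_pow two_ne_zero
        refine integral_mono ?_ hi fun z => ?_
        · exact av_integrand (w := fun x => χ x ^ 2) (hχ.continuous.pow 2)
            (hcs.comp_left (g := fun t : ℝ => t ^ 2) (by norm_num)) hi y
        · have h6 : χ (z - y) ^ 2 ≤ 1 := pow_le_one₀ (h0 _) (h1 _)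
          calc χ (z - y) ^ 2 * ‖∑ i, a i * u i z‖ ^ 2 ≤ 1 * ‖∑ i, a i * u i z‖ ^ 2 :=
                mul_le_mul_of_nonneg_right h6 (by positivity)
            _ = _ := one_mul _
      have h7 := cell hd u g hu hχy hcy 1 one_pos h5
      rw [Real.one_rpow, one_mul] at h7
      have h8 : K * Av w P y ≤ T y := h7
      rw [← h4]
      calc C * K * Av w P y = K * Av w P y + (C - 1) * K * Av w P y := by ring
        _ ≤ _ := by linarith
  have hTi : Integrable T ∧ ∫ y, T y = (∫ x, χ x ^ 2) * kin g +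
      (∑ k, ∫ x, pd k χ x ^ 2) * (∑ i, ∫ x, ‖u i x‖ ^ 2) := by
    have ht := fun i k => term_int (hu i).f2 ((hu i).g2 k) hχ hcs k
    constructor
    · exact integrable_finsetSum _ fun i _ => integrable_finsetSum _ fun k _ => (ht i k).1
    · show ∫ y, ∑ i, ∑ k, ∫ x, ‖(χ (x - y) : ℂ) * g i k x +
        (pd k (fun x => χ (x - y)) x : ℂ) * u i x‖ ^ 2 = _
      rw [integral_finsetSum _ fun i _ => integrable_finsetSum _ fun k _ => (ht i k).1]
      have e1 : ∀ i, ∫ y, ∑ k, ∫ x, ‖(χ (x - y) : ℂ) * g i k x +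
          (pd k (fun x => χ (x - y)) x : ℂ) * u i x‖ ^ 2 =
          (∫ x, χ x ^ 2) * (∑ k, ∫ x, ‖g i k x‖ ^ 2) +
            (∑ k, ∫ x, pd k χ x ^ 2) * ∫ x, ‖u i x‖ ^ 2 := by
        intro i
        rw [integral_finsetSum _ fun k _ => (ht i k).1, Finset.mul_sum, Finset.sum_mul,
          ← Finset.sum_add_distrib]
        exact Finset.sum_congr rfl fun k _ => (ht i k).2
      rw [Finset.sum_congr rfl fun i _ => e1 i, Finset.sum_add_distrib, ← Finset.mul_sum,
        ← Finset.mul_sum]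
      rfl
  have hI := integral_mono ((av_int hwc hws hPi).const_mul (C * K))
    (hTi.1.add ((av_int hwc hws hPS).const_mul ((C - 1) * K))) point
  have e2 : ∫ y, (T + fun y => (C - 1) * K * Av w (S.indicator P) y) y =
      (∫ y, T y) + (C - 1) * K * ∫ y, Av w (S.indicator P) y := by
    rw [← integral_const_mul]
    exact integral_add hTi.1 ((av_int hwc hws hPS).const_mul ((C - 1) * K))
  rw [e2, integral_const_mul, av_integral hwc hws hPi, av_integral hwc hws hPS, hTi.2,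
    integral_indicator hS] at hI
  exact hI


theorem re_int {N : ℕ} (u : Fin N → (Fin d → ℝ) → ℂ) (hu : ∀ i, MemLp (u i) 2 volume)
    (a : Fin N → ℂ) : Integrable (fun z => (∑ i, a i * u i z).re ^ 2) :=
  (sum_memLp u hu a).re.integrable_sq

/-- The set of the points at which the real part of some normalized function of the span has more
than the mass `c` in the cube of side `2 R`. -/
def ConcRe {N : ℕ} (u : Fin N → (Fin d → ℝ) → ℂ) (R c : ℝ) : Set (Fin d → ℝ) :=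
  {x | ∃ a : Fin N → ℂ, ∑ i, ‖a i‖ ^ 2 = 1 ∧ c < ∫ z in Metric.ball x R, (∑ i, a i * u i z).re ^ 2}

theorem concRe_isOpen {N : ℕ} (u : Fin N → (Fin d → ℝ) → ℂ) (hu : ∀ i, MemLp (u i) 2 volume)
    (R c : ℝ) (hR : 0 < R) : IsOpen (ConcRe u R c) := by
  have e : ConcRe u R c = ⋃ a ∈ {a : Fin N → ℂ | ∑ i, ‖a i‖ ^ 2 = 1},
      {x | c < ∫ z in Metric.ball x R, (∑ i, a i * u i z).re ^ 2} := by
    ext x
    simp only [ConcRe, mem_iUnion, exists_prop]
    rfl
  rw [e]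
  refine isOpen_biUnion fun a _ => ?_
  exact conc_open (re_int u hu a) (fun x => sq_nonneg _) c R hR

theorem spread_re {N : ℕ} (u : Fin N → (Fin d → ℝ) → ℂ) (R c : ℝ) (hc : 0 ≤ c) {x : Fin d → ℝ}
    (hx : x ∉ ConcRe u R c) (a : Fin N → ℂ) :
    ∫ z in Metric.ball x R, (∑ i, a i * u i z).re ^ 2 ≤ c * ∑ i, ‖a i‖ ^ 2 := by
  by_cases hs : ∑ i, ‖a i‖ ^ 2 = 0
  · have h0 : ∀ i, a i = 0 := by
      intro i
      have h1 := (Finset.sum_eq_zero_iff_of_nonneg (fun i _ => by positivity)).1 hs i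
        (Finset.mem_univ i)
      exact norm_eq_zero.1 (pow_eq_zero_iff two_ne_zero |>.1 h1)
    simp [h0]
  · have hs0 : 0 < ∑ i, ‖a i‖ ^ 2 :=
      lt_of_le_of_ne (Finset.sum_nonneg fun i _ => by positivity) (Ne.symm hs)
    set s : ℝ := ∑ i, ‖a i‖ ^ 2 with hsd
    have hsc : √(s⁻¹) ^ 2 = s⁻¹ := Real.sq_sqrt (inv_pos.2 hs0).le
    have hn : ∀ z : ℂ, ‖(√(s⁻¹) : ℂ) * z‖ ^ 2 = s⁻¹ * ‖z‖ ^ 2 := by
      intro z
      rw [norm_mul, Complex.norm_real, Real.norm_eq_abs, mul_pow, sq_abs, hsc]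
    have h1 : ¬ c < ∫ z in Metric.ball x R,
        (∑ i, ((√(s⁻¹) : ℝ) : ℂ) * a i * u i z).re ^ 2 := by
      intro h
      refine hx ⟨fun i => ((√(s⁻¹) : ℝ) : ℂ) * a i, ?_, h⟩
      simp only [hn, ← Finset.mul_sum]
      exact inv_mul_cancel₀ hs0.ne'
    have h2 : ∀ z, (∑ i, ((√(s⁻¹) : ℝ) : ℂ) * a i * u i z).re ^ 2 =
        s⁻¹ * (∑ i, a i * u i z).re ^ 2 := by
      intro z
      have h3 : ∑ i, ((√(s⁻¹) : ℝ) : ℂ) * a i * u i z =
          ((√(s⁻¹) : ℝ) : ℂ) * ∑ i, a i * u i z := by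
        rw [Finset.mul_sum]
        exact Finset.sum_congr rfl fun i _ => by ring
      rw [h3, Complex.re_ofReal_mul, mul_pow, hsc]
    simp only [h2] at h1
    rw [integral_const_mul, not_lt] at h1
    have h3 := mul_le_mul_of_nonneg_left h1 hs0.le
    rw [← mul_assoc, mul_inv_cancel₀ hs0.ne', one_mul] at h3
    linarith

/-- The localised inequality. -/
theorem scaled_re (hd : 1 ≤ d) {N : ℕ} (u : Fin N → (Fin d → ℝ) → ℂ)
    (g : Fin N → Fin d → (Fin d → ℝ) → ℂ) (hu : ∀ i, WGradC (u i) (g i)) (hsub : SubGram u)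
    {φ : (Fin d → ℝ) → ℝ} (hφ : ContDiff ℝ (⊤ : ℕ∞) φ) (hcs : HasCompactSupport φ)
    (h0 : ∀ x, 0 ≤ φ x) (h1 : ∀ x, φ x ≤ 1) (hb : ∀ x, φ x ≠ 0 → ‖x‖ < 1)
    (c : ℝ) (hc : 0 < c) (hc1 : c ≤ 1) (R : ℝ) (hR : 0 < R) :
    Integrable (fun x => rho u x ^ (1 + 2 / (d : ℝ))) ∧
    c ^ (-(2 / (d : ℝ))) * ((3 / 4 : ℝ) ^ (1 / (d : ℝ)) * Kcl d) *
        ((∫ x, (φ x ^ 2) ^ (1 + 2 / (d : ℝ))) * ∫ x, rho u x ^ (1 + 2 / (d : ℝ))) ≤
      (∫ x, φ x ^ 2) * kin g +
        4 / R ^ 2 * ((∑ k, ∫ x, pd k φ x ^ 2) * (∑ i, ∫ x, ‖u i x‖ ^ 2)) +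
      (c ^ (-(2 / (d : ℝ))) - 1) * ((3 / 4 : ℝ) ^ (1 / (d : ℝ)) * Kcl d) *
        ((∫ x, (φ x ^ 2) ^ (1 + 2 / (d : ℝ))) *
          ∫ x in ConcRe u R c, rho u x ^ (1 + 2 / (d : ℝ))) := by
  set s : ℝ := 2 / R with hs
  have hs0 : 0 < s := by rw [hs]; positivity
  have hχ : ContDiff ℝ (⊤ : ℕ∞) fun x : Fin d → ℝ => φ (s • x) := hφ.comp (contDiff_const_smul s)
  have hχs : HasCompactSupport fun x : Fin d → ℝ => φ (s • x) :=
    hcs.comp_homeomorph (Homeomorph.smulOfNeZero s hs0.ne')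
  have hmeas : MeasurableSet (ConcRe u R c) :=
    (concRe_isOpen u (fun i => (hu i).f2) R c hR).measurableSet
  have key := avg_re hd u g hu hsub hχ hχs (fun x => h0 _) (fun x => h1 _) c hc hc1 (ConcRe u R c) hmeas ?_
  · refine ⟨key.1, ?_⟩
    have h2 := key.2
    set m : ℝ := |(s ^ Module.finrank ℝ (Fin d → ℝ))⁻¹| with hm
    have hm0 : 0 < m := by rw [hm]; positivity
    have i1 : ∫ x : Fin d → ℝ, (φ (s • x) ^ 2) ^ (1 + 2 / (d : ℝ)) =
        m * ∫ x, (φ x ^ 2) ^ (1 + 2 / (d : ℝ)) := by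
      have := Measure.integral_comp_smul (volume : Measure (Fin d → ℝ))
        (fun x => (φ x ^ 2) ^ (1 + 2 / (d : ℝ))) s
      rw [smul_eq_mul] at this
      exact this
    have i2 : ∫ x : Fin d → ℝ, φ (s • x) ^ 2 = m * ∫ x, φ x ^ 2 := by
      have := Measure.integral_comp_smul (volume : Measure (Fin d → ℝ)) (fun x => φ x ^ 2) s
      rw [smul_eq_mul] at this
      exact this
    have i3 : ∀ k, ∫ x : Fin d → ℝ, pd k (fun x => φ (s • x)) x ^ 2 =
        s ^ 2 * (m * ∫ x, pd k φ x ^ 2) := by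
      intro k
      have := Measure.integral_comp_smul (volume : Measure (Fin d → ℝ)) (fun x => pd k φ x ^ 2) s
      rw [smul_eq_mul] at this
      rw [← hm] at this
      rw [← this, ← integral_const_mul]
      refine integral_congr_ae (Eventually.of_forall fun x => ?_)
      simp only [pd_scale hφ]
      ring
    simp only [i1, i2, i3] at h2
    have hs2 : s ^ 2 = 4 / R ^ 2 := by
      rw [hs, div_pow]
      norm_num
    rw [← Finset.mul_sum, ← Finset.mul_sum, hs2] at h2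
    refine le_of_mul_le_mul_left ?_ hm0
    refine le_trans (le_of_eq ?_) (le_trans h2 (le_of_eq ?_)) <;> ring
  · intro x y hx hxy a
    have h3 := spread_re u R c hc.le hx a
    refine le_trans ?_ h3
    have hF : Integrable fun z => (∑ i, a i * u i z).re ^ 2 := re_int u (fun i => (hu i).f2) a
    have hball : ∀ z y : Fin d → ℝ, φ (s • (z - y)) ≠ 0 → ‖z - y‖ < R / 2 := by
      intro z y hz
      have h4 := hb _ hz
      rw [norm_smul, Real.norm_of_nonneg hs0.le, hs, div_mul_eq_mul_div, div_lt_one hR] at h4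
      linarith
    rw [← integral_indicator Metric.isOpen_ball.measurableSet]
    refine integral_mono ?_ (hF.indicator Metric.isOpen_ball.measurableSet) fun z => ?_
    · have hχ2 : HasCompactSupport fun x : Fin d → ℝ => φ (s • x) ^ 2 :=
        hχs.comp_left (g := fun t : ℝ => t ^ 2) (by norm_num)
      have hχ3 : Continuous fun x : Fin d → ℝ => φ (s • x) ^ 2 := hχ.continuous.pow 2
      exact av_integrand hχ3 hχ2 hF y
    · show φ (s • (z - y)) ^ 2 * (∑ i, a i * u i z).re ^ 2 ≤ _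
      by_cases hz : z ∈ Metric.ball x R
      · rw [indicator_of_mem hz]
        have h6 : φ (s • (z - y)) ^ 2 ≤ 1 := pow_le_one₀ (h0 _) (h1 _)
        calc φ (s • (z - y)) ^ 2 * (∑ i, a i * u i z).re ^ 2 ≤ 1 * (∑ i, a i * u i z).re ^ 2 :=
              mul_le_mul_of_nonneg_right h6 (by positivity)
          _ = _ := one_mul _
      · rw [indicator_of_notMem hz]
        have h7 : φ (s • (z - y)) = 0 := by
          by_contra h8
          apply hz
          rw [Metric.mem_ball, dist_eq_norm]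
          have h9 := hball z y h8
          have h10 := hball x y hxy
          calc ‖z - x‖ = ‖(z - y) - (x - y)‖ := by congr 1; abel
            _ ≤ ‖z - y‖ + ‖x - y‖ := norm_sub_le _ _
            _ < R := by linarith
        rw [h7]
        simp


end Pool.Agent.U615.LT
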